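import Mathlib

namespace Pool.Agent.Results.MP_5bcb58_co.Counter

open Finset Equiv

section defs
variable {n : ℕ}

open Classical in
/-- The edges `i < j` of `G`, ordered lexicographically. -/
noncomputable def edges (G : SimpleGraph (Fin n)) : Finset (Fin n ×ₗ Fin n) :=
  univ.filter fun p => (ofLex p).1 < (ofLex p).2 ∧ G.Adj (ofLex p).1 (ofLex p).2

/-- The spanning subgraph `([n], F)`. -/
def spanG (F : Finset (Fin n ×ₗ Fin n)) : SimpleGraph (Fin n) :=
  SimpleGraph.fromRel fun i j => toLex (i, j) ∈ F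

/-- The Young subgroup `S_{β(F)}`: permutations preserving each component of `([n], F)`. -/
def Young (F : Finset (Fin n ×ₗ Fin n)) : Set (Perm (Fin n)) :=
  {h | ∀ i, (spanG F).Reachable i (h i)}

/-- `C_i (G) = ⊕_{#F = i} M_F`, with `M_F` the functions on `S_n` constant on the cosets
`g S_{β(F)}` (a coset is identified with its indicator function). -/
def Ch (G : SimpleGraph (Fin n)) (i : ℕ) :
    Submodule ℤ (Finset (Fin n ×ₗ Fin n) → Perm (Fin n) → ℤ) where
  carrier := {c | ∀ F, (¬ (F ⊆ edges G ∧ F.card = i) → c F = 0) ∧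
    ∀ h ∈ Young F, ∀ g, c F (g * h) = c F g}
  add_mem' ha hb F := ⟨fun h => by simp [(ha F).1 h, (hb F).1 h],
    fun h x g => by simp [(ha F).2 h x g, (hb F).2 h x g]⟩
  zero_mem' _ := ⟨fun _ => rfl, fun _ _ _ => rfl⟩
  smul_mem' r _ ha F := ⟨fun h => by simp [(ha F).1 h], fun h x g => by simp [(ha F).2 h x g]⟩

/-- The differential; on coset indicators the transfer `M_F → M_{F - e}` is the inclusion. -/
noncomputable def dd (G : SimpleGraph (Fin n)) : (Finset (Fin n ×ₗ Fin n) → Perm (Fin n) → ℤ) →ₗ[ℤ]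
    (Finset (Fin n ×ₗ Fin n) → Perm (Fin n) → ℤ) where
  toFun c F := ∑ e ∈ edges G \ F,
    (-1 : ℤ) ^ ((insert e F).filter (· < e)).card • c (insert e F)
  map_add' a b := by ext1 F; simp [sum_add_distrib]
  map_smul' r a := by
    ext1 F
    simp only [Pi.smul_apply, RingHom.id_apply, smul_sum]
    exact sum_congr rfl fun _ _ => smul_comm _ _ _

/-- The subquotient `Z / (B ∩ Z)`. -/
abbrev Sq {M : Type} [AddCommGroup M] (Z B : Submodule ℤ M) : Type := Z ⧸ B.submoduleOf Z

/-- `H_k (G; ℤ)`: cycles modulo boundaries. -/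
abbrev Hm (G : SimpleGraph (Fin n)) (k : ℕ) : Type :=
  Sq (Ch G k ⊓ LinearMap.ker (dd G)) ((Ch G (k + 1)).map (dd G))

/-- `span_0 (G) = k + 1` for the largest `k` with `H_k (G; ℤ) ≠ 0`. -/
noncomputable def span0 (G : SimpleGraph (Fin n)) : ℕ := sSup {k | Nontrivial (Hm G k)} + 1

/-- A connected subgraph with no cut vertex. -/
def Bi {G : SimpleGraph (Fin n)} (H : G.Subgraph) : Prop := H.Connected ∧ ∀ v,
  Nat.card (H.deleteVerts {v}).coe.ConnectedComponent ≤ Nat.card H.coe.ConnectedComponent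

/-- The number of blocks (maximal connected subgraphs with no cut vertex). -/
noncomputable def blocks (G : SimpleGraph (Fin n)) : ℕ := {H : G.Subgraph | Maximal Bi H}.ncard
end defs

def GG : SimpleGraph (Fin 4) := SimpleGraph.fromRel fun i j => (i = 0 ∧ j = 1) ∨ (i = 2 ∧ j = 3)

instance : DecidableRel GG.Adj := fun a b => by unfold GG; rw [SimpleGraph.fromRel_adj]; infer_instance

lemma bi_adj {a b : Fin 4} (h : GG.Adj a b) : Bi (GG.subgraphOfAdj h) := by
  have c := SimpleGraph.Subgraph.subgraphOfAdj_connected h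
  refine ⟨c, fun v => ?_⟩
  have : Subsingleton ((GG.subgraphOfAdj h).deleteVerts {v}).coe.ConnectedComponent := by
    refine SimpleGraph.Preconnected.subsingleton_connectedComponent fun x y => ?_
    by_cases e : x = y
    · rw [e]
    refine SimpleGraph.Adj.reachable ?_
    have e' : x.1 ≠ y.1 := fun z => e (Subtype.ext z)
    obtain ⟨x, hx, hx'⟩ := x
    obtain ⟨y, hy, hy'⟩ := y
    refine SimpleGraph.Subgraph.deleteVerts_adj.2 ⟨hx, hx', hy, hy', ?_⟩
    simp only [SimpleGraph.subgraphOfAdj_verts, Set.mem_insert_iff, Set.mem_singleton_iff] at hx hy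
    rcases hx with rfl | rfl <;> rcases hy with rfl | rfl <;> simp at e' ⊢
  have := c.coe.nonempty
  exact Finite.card_le_one_iff_subsingleton.2 ‹_› |>.trans Nat.card_pos

lemma blocks_le : blocks GG ≤ 2 := by
  have h1 : GG.Adj 0 1 := by decide
  have h2 : GG.Adj 2 3 := by decide
  refine (Set.ncard_le_ncard (t := {GG.subgraphOfAdj h1, GG.subgraphOfAdj h2}) (fun H h => ?_)
    (Set.toFinite _)).trans (Set.ncard_insert_le _ _ |>.trans (by simp))
  have k : ∀ x y : H.verts, (x.1 < 2 ↔ y.1 < 2) := fun x y => by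
    obtain ⟨w⟩ := h.1.1.coe.preconnected x y
    induction w with
    | nil => rfl
    | cons a _ ih =>
      exact ((by decide : ∀ a b, GG.Adj a b → (a < 2 ↔ b < 2)) _ _ (H.adj_sub a)).trans ih
  obtain ⟨v, hv⟩ := h.1.1.nonempty
  by_cases s : v < 2
  · refine Or.inl (h.eq_of_le (bi_adj h1) ⟨fun u hu => ?_, fun a b x => ?_⟩)
    · exact (by decide : ∀ u : Fin 4, u < 2 → u = 0 ∨ u = 1) u ((k ⟨u, hu⟩ ⟨v, hv⟩).2 s)
    · exact (by decide : ∀ a b, GG.Adj a b → a < 2 → s(0, 1) = s(a, b)) a b (H.adj_sub x)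
        ((k ⟨a, H.edge_vert x⟩ ⟨v, hv⟩).2 s)
  · refine Or.inr (h.eq_of_le (bi_adj h2) ⟨fun u hu => ?_, fun a b x => ?_⟩)
    · exact (by decide : ∀ u : Fin 4, ¬ u < 2 → u = 2 ∨ u = 3) u (mt (k ⟨u, hu⟩ ⟨v, hv⟩).1 s)
    · exact (by decide : ∀ a b, GG.Adj a b → ¬ a < 2 → s(2, 3) = s(a, b)) a b (H.adj_sub x)
        (mt (k ⟨a, H.edge_vert x⟩ ⟨v, hv⟩).1 s)

abbrev e1 : Fin 4 ×ₗ Fin 4 := toLex (0, 1)
abbrev e2 : Fin 4 ×ₗ Fin 4 := toLex (2, 3)

lemma ed : edges GG = {e1, e2} := by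
  ext p
  simp only [edges, mem_filter, mem_univ, true_and]
  revert p; decide

lemma sw {a b : Fin 4} (h : a ≠ b) : swap a b ∈ Young {toLex (a, b)} := fun i => by
  have : (spanG {toLex (a, b)}).Adj a b := by simp [spanG, h]
  rw [swap_apply_def]
  split_ifs with x y
  · rw [x]; exact this.reachable
  · rw [y]; exact this.symm.reachable
  · rfl

lemma yg {h : Perm (Fin 4)} (x : h ∈ Young {e1, e2}) :
    h = 1 ∨ h = swap 0 1 ∨ h = swap 2 3 ∨ h = swap 0 1 * swap 2 3 := by
  have k : ∀ a b, (spanG {e1, e2}).Reachable a b → (a < 2 ↔ b < 2) := by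
    rintro a b ⟨w⟩
    induction w with
    | nil => rfl
    | cons t _ ih =>
      rw [spanG, SimpleGraph.fromRel_adj] at t
      exact ((by decide : ∀ a b : Fin 4, a ≠ b ∧ (toLex (a, b) ∈ ({e1, e2} : Finset _) ∨
        toLex (b, a) ∈ ({e1, e2} : Finset _)) → (a < 2 ↔ b < 2)) _ _ t).trans ih
  exact (by decide : ∀ h : Perm (Fin 4), (∀ i, i < 2 ↔ h i < 2) →
    h = 1 ∨ h = swap 0 1 ∨ h = swap 2 3 ∨ h = swap 0 1 * swap 2 3) h fun i => k _ _ (x i)

lemma dd_ap (c : Finset (Fin 4 ×ₗ Fin 4) → Perm (Fin 4) → ℤ) (F : Finset (Fin 4 ×ₗ Fin 4)) :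
    dd GG c F = ∑ e ∈ ({e1, e2} : Finset _) \ F,
      (-1 : ℤ) ^ ((insert e F).filter (· < e)).card • c (insert e F) := by rw [← ed]; rfl

lemma sub_cases : ∀ F : Finset (Fin 4 ×ₗ Fin 4), F ⊆ {e1, e2} →
    F = ∅ ∨ F = {e1} ∨ F = {e2} ∨ F = {e1, e2} := fun F h => by
  have : F ∈ powerset {e1, e2} := mem_powerset.2 h
  rw [show powerset {e1, e2} = {∅, {e1}, {e2}, {e1, e2}} by decide] at this
  simpa using this

lemma d0 (c : Finset (Fin 4 ×ₗ Fin 4) → Perm (Fin 4) → ℤ) : dd GG c ∅ = c {e1} + c {e2} := by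
  rw [dd_ap, sdiff_empty, sum_pair (by decide)]; simp [filter_singleton]

lemma d1 (c : Finset (Fin 4 ×ₗ Fin 4) → Perm (Fin 4) → ℤ) : dd GG c {e1} = -c {e1, e2} := by
  rw [dd_ap, show ({e1, e2} : Finset _) \ {e1} = {e2} by decide, sum_singleton,
    show insert e2 {e1} = ({e1, e2} : Finset _) by decide,
    show (({e1, e2} : Finset _).filter (· < e2)).card = 1 by decide]
  simp

lemma d2 (c : Finset (Fin 4 ×ₗ Fin 4) → Perm (Fin 4) → ℤ) : dd GG c {e2} = c {e1, e2} := by
  rw [dd_ap, show ({e1, e2} : Finset _) \ {e2} = {e1} by decide, sum_singleton,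
    show ((insert e1 {e2} : Finset _).filter (· < e1)).card = 0 by decide]
  simp

lemma van (k : ℕ) (c : Finset (Fin 4 ×ₗ Fin 4) → Perm (Fin 4) → ℤ) (hc : c ∈ Ch GG (k + 1))
    (h : dd GG c = 0) : ∃ b ∈ Ch GG (k + 2), dd GG b = c := by
  have z : ∀ F, ¬ (F ⊆ {e1, e2} ∧ F.card = k + 1) → c F = 0 := fun F x => (hc F).1 (ed ▸ x)
  rcases k with _ | k
  · have a := congrFun h ∅
    rw [d0, Pi.zero_apply, add_eq_zero_iff_eq_neg] at a
    have i1 := (hc {e1}).2 _ (sw (by decide))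
    have i2 := (hc {e2}).2 _ (sw (by decide))
    simp only [a, Pi.neg_apply, neg_inj] at i1
    refine ⟨Pi.single {e1, e2} (c {e2}), fun F => ?_, funext fun F => ?_⟩
    · by_cases x : F = {e1, e2}
      · subst x
        refine ⟨fun y => absurd ⟨ed.ge, by decide⟩ y, fun t y g => ?_⟩
        rw [Pi.single_eq_same]
        rcases yg y with rfl | rfl | rfl | rfl
        · rw [mul_one]
        · exact i1 g
        · exact i2 g
        · rw [← mul_assoc, i2, i1]
      · rw [Pi.single_eq_of_ne x]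
        exact ⟨fun _ => rfl, fun _ _ _ => rfl⟩
    · by_cases x : F ⊆ {e1, e2}
      · rcases sub_cases F x with rfl | rfl | rfl | rfl
        · rw [d0, Pi.single_eq_of_ne (by decide), Pi.single_eq_of_ne (by decide), z _ (by decide)]
          simp
        · rw [d1, Pi.single_eq_same, a]
        · rw [d2, Pi.single_eq_same]
        · rw [dd_ap, Finset.sdiff_self, sum_empty, z _ (by decide)]
      · rw [z _ fun y => x y.1, dd_ap]
        refine sum_eq_zero fun e _ => ?_
        rw [Pi.single_eq_of_ne fun y => x (by rw [← y]; exact subset_insert _ _), smul_zero]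
  · refine ⟨0, zero_mem _, (map_zero _).trans (funext fun F => ?_).symm⟩
    by_contra x
    obtain ⟨y, w⟩ := not_not.1 (mt (z F) x)
    rcases sub_cases F y with rfl | rfl | rfl | rfl
    · simp at w
    · simp at w
    · simp at w
    · exact x ((d2 c).symm.trans (congrFun h _))

theorem result : ∃ G : SimpleGraph (Fin 4), span0 G < 4 - blocks G := by
  refine ⟨GG, ?_⟩
  have : sSup {k | Nontrivial (Hm GG k)} ≤ 0 := csSup_le' fun k hk => by
    rcases k with _ | k
    · rfl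
    · refine absurd hk (not_nontrivial_iff_subsingleton.2 ?_)
      exact Submodule.Quotient.subsingleton_iff.2 (eq_top_iff.2 fun c _ => van k c.1 c.2.1 c.2.2)
  have := blocks_le
  unfold span0
  omega

end Pool.Agent.Results.MP_5bcb58_co.Counter
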